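import Pool.Agent.H59.L.T374d34.N483.KM.Stm
import Pool.Agent.H59.L.S8.R755.KF.L3
import Pool.Agent.H59.L.S8.H212R2.KLS.T1

/-!
# Project KM: images of convex bodies, Prékopa–Leindler and bounded support
-/

set_option autoImplicit false

namespace Pool.Agent.N123.KM

open MeasureTheory Set Filter Topology
open scoped ENNReal InnerProductSpace
open Pool.Agent.R754.KG (E un)
open Pool.Agent.R755.KF
open Pool.Agent.N483.KM

theorem zero_rpow_le {t : ℝ} (ht : 0 < t) : (0 : ℝ≥0∞) ^ t = 0 := ENNReal.zero_rpow_of_pos ht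

/-- Prékopa–Leindler for images of convex bodies under affine maps -/
theorem pls {n k : ℕ} (C : Set (E n)) (φ : E n → E k) (hC : Convex ℝ C) (hCm : MeasurableSet C)
    (hφ : Measurable φ) (v0 : volume C ≠ 0) (vt : volume C ≠ ∞)
    (H : ∀ (s : ℝ) (x y : E n), φ ((1 - s) • x + s • y) = (1 - s) • φ x + s • φ y) :
    PLS (Measure.map φ (un C)) := by
  intro s hs0 hs1 f g h hf hg hh hfg
  have hs : 0 < 1 - s := by linarith
  rw [L3aux.lint_map C φ hCm hφ f hf, L3aux.lint_map C φ hCm hφ g hg,
    L3aux.lint_map C φ hCm hφ h hh]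
  have key := Pool.Agent.H212R2.KLS.PL (volume : Measure (E n)) s hs0 hs1
    (C.indicator fun x => f (φ x)) (C.indicator fun x => g (φ x)) (C.indicator fun x => h (φ x))
    ((hf.comp hφ).indicator hCm) ((hg.comp hφ).indicator hCm) ((hh.comp hφ).indicator hCm) (by
      intro x y
      by_cases hx : x ∈ C
      · by_cases hy : y ∈ C
        · have h1 : (1 - s) • x + s • y ∈ C := hC hx hy hs.le hs0.le (by ring)
          rw [indicator_of_mem hx, indicator_of_mem hy, indicator_of_mem h1, H]
          exact hfg _ _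
        · rw [indicator_of_notMem hy, ENNReal.zero_rpow_of_pos hs0, mul_zero]
          exact zero_le
      · rw [indicator_of_notMem hx, ENNReal.zero_rpow_of_pos hs, zero_mul]
        exact zero_le)
  set I0 := ∫⁻ x, C.indicator (fun x => f (φ x)) x
  set I1 := ∫⁻ x, C.indicator (fun x => g (φ x)) x
  set Im := ∫⁻ x, C.indicator (fun x => h (φ x)) x
  have c0 : (volume C)⁻¹ ≠ 0 := ENNReal.inv_ne_zero.2 vt
  have ct : (volume C)⁻¹ ≠ ∞ := ENNReal.inv_ne_top.2 v0
  rw [ENNReal.mul_rpow_of_nonneg _ _ hs.le, ENNReal.mul_rpow_of_nonneg _ _ hs0.le]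
  calc (volume C)⁻¹ ^ (1 - s) * I0 ^ (1 - s) * ((volume C)⁻¹ ^ s * I1 ^ s)
      = ((volume C)⁻¹ ^ (1 - s) * (volume C)⁻¹ ^ s) * (I0 ^ (1 - s) * I1 ^ s) := by ring
    _ = (volume C)⁻¹ * (I0 ^ (1 - s) * I1 ^ s) := by
        rw [← ENNReal.rpow_add _ _ c0 ct]
        have : 1 - s + s = 1 := by ring
        rw [this, ENNReal.rpow_one]
    _ ≤ _ := by gcongr

/-- images of convex bodies -/
theorem t_LCI : S_LCI := by
  rintro k ν ⟨n, C, T, b, hC, hc, hv, rfl⟩
  have hT : Continuous T := T.continuous_of_finiteDimensional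
  have hφ : Continuous fun x => b + T x := continuous_const.add hT
  have hCm : MeasurableSet C := hc.isClosed.measurableSet
  have vt : volume C ≠ ∞ := hc.measure_lt_top.ne
  have hpos : 0 < (volume C).toReal := ENNReal.toReal_pos hv.ne' vt
  refine ⟨?_, ?_, ?_⟩
  · refine pls C (fun x => b + T x) hC hCm hφ.measurable hv.ne' vt ?_
    intro s x y
    rw [map_add, map_smul, map_smul, smul_add, smul_add]
    have : b = (1 - s) • b + s • b := by rw [← add_smul]; simp
    nth_rewrite 1 [this]
    abel
  · have h := L3aux.gen C C C (fun x => b + T x) (fun x => b + T x) (fun x => b + T x) hCm hCm hCm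
      hφ.measurable hφ.measurable hφ.measurable hpos hpos hpos (by
        intro x hx y hy
        constructor
        · have h := hC hx hy (show (0 : ℝ) ≤ 1 / 2 by norm_num)
            (show (0 : ℝ) ≤ 1 / 2 by norm_num) (by norm_num)
          rwa [smul_add]
        · rw [map_smul, map_add]
          have : b = (1 / 2 : ℝ) • (b + b) := by rw [← two_smul ℝ b, smul_smul]; norm_num
          nth_rewrite 1 [this]
          rw [← smul_add]
          congr 1
          abel)
    have e : (volume C).toReal ^ 2 / ((volume C).toReal * (volume C).toReal) = 1 := by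
      rw [sq, div_self (by positivity)]
    rwa [e] at h
  · obtain ⟨B, hB⟩ := (hc.image hφ).isBounded.exists_norm_le
    refine ⟨max B 0, le_max_right _ _, ?_, ?_⟩
    · have := Pool.Agent.R754.KG.un_prob hv.ne' vt
      exact Measure.isProbabilityMeasure_map hφ.measurable.aemeasurable
    · rw [ae_map_iff hφ.measurable.aemeasurable
        (measurableSet_le measurable_norm measurable_const)]
      have h1 : ∀ᵐ x ∂(un C), x ∈ C := by
        unfold un
        exact Measure.ae_smul_measure (ae_restrict_mem hCm) _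
      filter_upwards [h1] with x hx
      exact (hB _ ⟨x, hx, rfl⟩).trans (le_max_left _ _)

end Pool.Agent.N123.KM
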